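import Mathlib

/-!
# Maps of a ball of `ℝ⁴` which preserve the order of the distances from each point are similarities
-/

set_option autoImplicit false

open Set Filter Topology Metric

noncomputable section

namespace Pool.Agent.Helper65.QS

/-- `ℝ⁴` -/
abbrev E : Type := EuclideanSpace ℝ (Fin 4)

/-- `h` preserves the order of the distances from the points of the ball of radius 8. -/
def Mono (h : E → E) : Prop :=
  ∀ p ∈ closedBall (0 : E) 8, ∀ a ∈ closedBall (0 : E) 8, ∀ b ∈ closedBall (0 : E) 8,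
    ‖a - p‖ < ‖b - p‖ → ‖h a - h p‖ ≤ ‖h b - h p‖

variable {h : E → E}

theorem step1 (hc : ContinuousOn h (closedBall 0 8)) (hm : Mono h) {p a b : E}
    (hp : ‖p‖ < 8) (ha : ‖a‖ < 8) (hb : ‖b‖ < 8) (hab : ‖a - p‖ ≤ ‖b - p‖) :
    ‖h a - h p‖ ≤ ‖h b - h p‖ := by
  by_cases hap : a = p
  · subst hap; simp
  have h0 : 0 < ‖b - p‖ := lt_of_lt_of_le (norm_pos_iff.mpr (sub_ne_zero.mpr hap)) hab
  have hlim : Tendsto (fun n : ℕ => b + (1 / ((n : ℝ) + 1)) • (b - p)) atTop (𝓝 b) := by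
    have h1 : Tendsto (fun n : ℕ => (1 / ((n : ℝ) + 1))) atTop (𝓝 0) :=
      tendsto_one_div_add_atTop_nhds_zero_nat
    have h2 := (h1.smul_const (b - p)).const_add b
    simpa using h2
  have hball : ∀ᶠ n : ℕ in atTop, b + (1 / ((n : ℝ) + 1)) • (b - p) ∈ ball (0 : E) 8 :=
    hlim.eventually (isOpen_ball.mem_nhds (by simpa using hb))
  have hcb : ContinuousAt h b :=
    hc.continuousAt (mem_of_superset (isOpen_ball.mem_nhds (show b ∈ ball (0 : E) 8 by simpa using hb))
      ball_subset_closedBall)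
  have hl2 : Tendsto (fun n : ℕ => ‖h (b + (1 / ((n : ℝ) + 1)) • (b - p)) - h p‖) atTop
      (𝓝 ‖h b - h p‖) := ((hcb.tendsto.comp hlim).sub_const (h p)).norm
  refine ge_of_tendsto hl2 ?_
  filter_upwards [hball] with n hn
  refine hm p (by simpa using hp.le) a (by simpa using ha.le) _ (ball_subset_closedBall hn) ?_
  have : b + (1 / ((n : ℝ) + 1)) • (b - p) - p = (1 + 1 / ((n : ℝ) + 1)) • (b - p) := by module
  rw [this, norm_smul, Real.norm_of_nonneg (by positivity)]
  have : 0 < 1 / ((n : ℝ) + 1) := by positivity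
  nlinarith

theorem step1_eq (hc : ContinuousOn h (closedBall 0 8)) (hm : Mono h) {p a b : E}
    (hp : ‖p‖ < 8) (ha : ‖a‖ < 8) (hb : ‖b‖ < 8) (hab : ‖a - p‖ = ‖b - p‖) :
    ‖h a - h p‖ = ‖h b - h p‖ :=
  le_antisymm (step1 hc hm hp ha hb hab.le) (step1 hc hm hp hb ha hab.ge)

/-- a vector orthogonal to a given one, of given length -/
theorem exists_orth (v : E) (r : ℝ) (hr : 0 ≤ r) : ∃ w : E, inner ℝ v w = 0 ∧ ‖w‖ = r := by
  obtain ⟨u, hu, hu0⟩ : ∃ u : E, u ∈ (Submodule.span ℝ {v})ᗮ ∧ u ≠ 0 := by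
    apply Submodule.exists_mem_ne_zero_of_ne_bot
    intro hbot
    have h1 := Submodule.finrank_add_finrank_orthogonal (Submodule.span ℝ {v} : Submodule ℝ E)
    rw [hbot, finrank_bot, add_zero] at h1
    have h2 : Module.finrank ℝ (Submodule.span ℝ {v} : Submodule ℝ E) ≤ 1 :=
      (finrank_span_le_card ({v} : Set E)).trans (by simp)
    have h3 : Module.finrank ℝ E = 4 := by simp [E]
    omega
  have hun : 0 < ‖u‖ := norm_pos_iff.mpr hu0
  refine ⟨(r / ‖u‖) • u, ?_, ?_⟩
  · rw [inner_smul_right, (Submodule.mem_orthogonal_singleton_iff_inner_right).mp hu, mul_zero]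
  · rw [norm_smul, Real.norm_of_nonneg (by positivity)]
    field_simp

theorem step2b (hc : ContinuousOn h (closedBall 0 8)) (hm : Mono h) {p p' a a' : E} {t : ℝ}
    (hp : ‖p‖ < 2) (hp' : ‖p'‖ < 2) (ht : t ≤ 4) (hpp : ‖p - p'‖ ≤ 2 * t)
    (ha : ‖a‖ < 8) (ha' : ‖a'‖ < 8) (hat : ‖a - p‖ = t) (hat' : ‖a' - p'‖ = t) :
    ‖h a - h p‖ = ‖h a' - h p'‖ := by
  have ht0 : 0 ≤ t := hat ▸ norm_nonneg _
  obtain ⟨w, hw, hwn⟩ := exists_orth (p - p') (Real.sqrt (t ^ 2 - (‖p - p'‖ / 2) ^ 2))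
    (Real.sqrt_nonneg _)
  have hw2 : ‖w‖ ^ 2 = t ^ 2 - (‖p - p'‖ / 2) ^ 2 := by
    rw [hwn, Real.sq_sqrt]
    have : ‖p - p'‖ / 2 ≤ t := by linarith
    have := norm_nonneg (p - p')
    nlinarith
  set z : E := (2 : ℝ)⁻¹ • (p + p') + w with hz
  have e1 : ‖z - p‖ = t := by
    have h1 : z - p = w - (2 : ℝ)⁻¹ • (p - p') := by rw [hz]; module
    have h2 : ‖z - p‖ ^ 2 = t ^ 2 := by
      rw [h1, norm_sub_sq_real, inner_smul_right, real_inner_comm, hw, norm_smul,
        Real.norm_of_nonneg (by norm_num), hw2]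
      ring
    exact (pow_left_inj₀ (norm_nonneg _) ht0 two_ne_zero).mp h2
  have e2 : ‖z - p'‖ = t := by
    have h1 : z - p' = w + (2 : ℝ)⁻¹ • (p - p') := by rw [hz]; module
    have h2 : ‖z - p'‖ ^ 2 = t ^ 2 := by
      rw [h1, norm_add_sq_real, inner_smul_right, real_inner_comm, hw, norm_smul,
        Real.norm_of_nonneg (by norm_num), hw2]
      ring
    exact (pow_left_inj₀ (norm_nonneg _) ht0 two_ne_zero).mp h2
  have hz8 : ‖z‖ < 8 := by
    have : ‖z‖ ≤ ‖z - p‖ + ‖p‖ := by simpa using norm_add_le (z - p) p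
    linarith
  have hp8 : ‖p‖ < 8 := by linarith
  have hp8' : ‖p'‖ < 8 := by linarith
  calc ‖h a - h p‖ = ‖h z - h p‖ := step1_eq hc hm hp8 ha hz8 (by rw [hat, e1])
    _ = ‖h p - h z‖ := norm_sub_rev _ _
    _ = ‖h p' - h z‖ := step1_eq hc hm hz8 hp8 hp8' (by rw [norm_sub_rev p z, norm_sub_rev p' z, e1, e2])
    _ = ‖h z - h p'‖ := norm_sub_rev _ _
    _ = ‖h a' - h p'‖ := step1_eq hc hm hp8' hz8 ha' (by rw [hat', e2])

/-- the first unit vector -/
def e0 : E := EuclideanSpace.single 0 1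

theorem norm_e0 : ‖e0‖ = 1 := by simp [e0]

theorem step2c (hc : ContinuousOn h (closedBall 0 8)) (hm : Mono h) {p p' : E} {t : ℝ}
    (hp : ‖p‖ < 2) (hp' : ‖p'‖ < 2) (ht : t ≤ 4) (ht0 : 0 < t) :
    ‖h (p + t • e0) - h p‖ = ‖h (p' + t • e0) - h p'‖ := by
  obtain ⟨n, hn⟩ := exists_nat_gt (‖p' - p‖ / (2 * t))
  have hn0 : (0 : ℝ) < n := lt_of_le_of_lt (by positivity) hn
  have hn1 : ‖p' - p‖ / n ≤ 2 * t := by
    rw [div_lt_iff₀ (by positivity)] at hn
    rw [div_le_iff₀ hn0]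
    linarith
  have key : ∀ k : ℕ, k ≤ n → ‖h (p + ((k : ℝ) / n) • (p' - p) + t • e0) - h (p + ((k : ℝ) / n) • (p' - p))‖ =
      ‖h (p + t • e0) - h p‖ := by
    intro k
    induction k with
    | zero => intro _; simp
    | succ k ih =>
      intro hk
      rw [← ih (by omega)]
      have hball : ∀ j : ℕ, j ≤ n → ‖p + ((j : ℝ) / n) • (p' - p)‖ < 2 := by
        intro j hj
        have hj1 : (j : ℝ) / n ≤ 1 := by
          rw [div_le_one hn0]; exact_mod_cast hj
        have hj0 : 0 ≤ (j : ℝ) / n := by positivity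
        have : p + ((j : ℝ) / n) • (p' - p) ∈ ball (0 : E) 2 := by
          refine (convex_ball (0 : E) 2).add_smul_sub_mem (by simpa using hp) (by simpa using hp')
            ⟨hj0, hj1⟩
        simpa using this
      have h1 := hball k (by omega)
      have h2 := hball (k + 1) hk
      have hte : ‖t • e0‖ = t := by rw [norm_smul, norm_e0, Real.norm_of_nonneg ht0.le, mul_one]
      have hlt : ∀ q : E, ‖q‖ < 2 → ‖q + t • e0‖ < 8 := by
        intro q hq
        have := norm_add_le q (t • e0)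
        linarith
      refine step2b hc hm h2 h1 ht ?_ (hlt _ h2) (hlt _ h1) ?_ ?_
      · have : p + ((((k + 1 : ℕ) : ℝ)) / n) • (p' - p) - (p + ((k : ℝ) / n) • (p' - p)) =
            (1 / (n : ℝ)) • (p' - p) := by
          push_cast
          have : ((k : ℝ) + 1) / n = k / n + 1 / n := by ring
          rw [this]
          module
        rw [this, norm_smul, Real.norm_of_nonneg (by positivity)]
        rw [one_div, inv_mul_eq_div]
        exact hn1
      · rw [add_sub_cancel_left, hte]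
      · rw [add_sub_cancel_left, hte]
  have h3 := key n le_rfl
  rw [div_self hn0.ne', one_smul, add_sub_cancel] at h3
  exact h3.symm

/-- the distance function -/
def phi (h : E → E) (t : ℝ) : ℝ := ‖h (t • e0) - h 0‖

theorem phi_nonneg (t : ℝ) : 0 ≤ phi h t := norm_nonneg _

theorem phi_zero : phi h 0 = 0 := by simp [phi]

theorem dist_eq_phi (hc : ContinuousOn h (closedBall 0 8)) (hm : Mono h) {a b : E}
    (ha : ‖a‖ < 2) (hb : ‖b‖ < 2) : ‖h a - h b‖ = phi h ‖a - b‖ := by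
  by_cases hab : a = b
  · subst hab; simp [phi_zero]
  have ht0 : 0 < ‖a - b‖ := norm_pos_iff.mpr (sub_ne_zero.mpr hab)
  have ht4 : ‖a - b‖ ≤ 4 := (norm_sub_le _ _).trans (by linarith)
  have hte : ‖(‖a - b‖) • e0‖ = ‖a - b‖ := by rw [norm_smul, norm_e0, norm_norm, mul_one]
  have h1 : ‖h a - h b‖ = ‖h (b + ‖a - b‖ • e0) - h b‖ := by
    refine step1_eq hc hm (by linarith) (by linarith) ?_ ?_
    · have := norm_add_le b (‖a - b‖ • e0)
      linarith
    · rw [add_sub_cancel_left, hte]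
  have h2 := step2c hc hm hb (show ‖(0 : E)‖ < 2 by simp) ht4 ht0
  rw [h1, h2, zero_add, phi]

theorem phi_mono (hc : ContinuousOn h (closedBall 0 8)) (hm : Mono h) {s t : ℝ} (hs : 0 ≤ s)
    (hst : s ≤ t) (ht : t < 8) : phi h s ≤ phi h t := by
  have h1 : ‖s • e0‖ = s := by rw [norm_smul, norm_e0, Real.norm_of_nonneg hs, mul_one]
  have h2 : ‖t • e0‖ = t := by
    rw [norm_smul, norm_e0, Real.norm_of_nonneg (hs.trans hst), mul_one]
  refine step1 hc hm (by simp) (by rw [h1]; linarith) (by rw [h2]; exact ht) ?_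
  rw [sub_zero, sub_zero, h1, h2]
  exact hst

/-- If `h` is constant near `0` it is constant. -/
theorem const_of_phi (hc : ContinuousOn h (closedBall 0 8)) (hm : Mono h) {t : ℝ} (ht : 0 < t)
    (ht8 : t < 8) (h0 : phi h t = 0) : ∀ a ∈ closedBall (0 : E) 8, h a = h 0 := by
  have hstep : ∀ n : ℕ, ∀ a : E, ‖a‖ < 2 ^ n * t → ‖a‖ < 8 → h a = h 0 := by
    intro n
    induction n with
    | zero =>
      intro a ha ha8
      rw [pow_zero, one_mul] at ha
      have h2 : ‖t • e0‖ = t := by rw [norm_smul, norm_e0, Real.norm_of_nonneg ht.le, mul_one]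
      have : ‖h a - h 0‖ ≤ ‖h (t • e0) - h 0‖ :=
        step1 hc hm (by simp) ha8 (by rw [h2]; exact ht8) (by rw [sub_zero, sub_zero, h2]; exact ha.le)
      rw [show ‖h (t • e0) - h 0‖ = phi h t from rfl, h0] at this
      exact sub_eq_zero.mp (norm_le_zero_iff.mp this)
    | succ n ih =>
      intro a ha ha8
      have hp : ‖(2 : ℝ)⁻¹ • a‖ = ‖a‖ / 2 := by
        rw [norm_smul, Real.norm_of_nonneg (by norm_num)]; ring
      have h1 : h ((2 : ℝ)⁻¹ • a) = h 0 := by
        refine ih _ ?_ ?_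
        · rw [hp, pow_succ] at *
          linarith
        · rw [hp]
          have := norm_nonneg a
          linarith
      have h2 : ‖h a - h ((2 : ℝ)⁻¹ • a)‖ ≤ ‖h 0 - h ((2 : ℝ)⁻¹ • a)‖ := by
        refine step1 hc hm ?_ ha8 (by simp) ?_
        · rw [hp]
          have := norm_nonneg a
          linarith
        · rw [show a - (2 : ℝ)⁻¹ • a = (2 : ℝ)⁻¹ • a by module, zero_sub, norm_neg]
      rw [h1, sub_self, norm_zero] at h2
      exact sub_eq_zero.mp (norm_le_zero_iff.mp h2)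
  have hopen : ∀ a ∈ ball (0 : E) 8, h a = h 0 := by
    intro a ha
    rw [mem_ball_zero_iff] at ha
    obtain ⟨n, hn⟩ := pow_unbounded_of_one_lt (‖a‖ / t) (one_lt_two : (1 : ℝ) < 2)
    refine hstep n a ?_ ha
    rwa [div_lt_iff₀ ht] at hn
  have hcl : closure (ball (0 : E) 8) = closedBall 0 8 := closure_ball _ (by norm_num)
  intro a ha
  have h1 : EqOn h (fun _ => h 0) (closure (ball (0 : E) 8)) := by
    refine EqOn.of_subset_closure (s := ball (0 : E) 8) hopen ?_ continuousOn_const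
      (subset_closure) subset_rfl
    rw [hcl]; exact hc
  rw [hcl] at h1
  exact h1 ha

theorem inner_zero_of_eq {x y z : E} (h1 : ‖x‖ = ‖y‖) (h2 : ‖x - z‖ = ‖y - z‖) :
    inner ℝ (x - y) z = (0 : ℝ) := by
  have h3 : ‖x - z‖ ^ 2 = ‖y - z‖ ^ 2 := by rw [h2]
  rw [norm_sub_sq_real, norm_sub_sq_real, h1] at h3
  rw [inner_sub_left]
  linarith

theorem norm_single_sub {i j : Fin 4} (hij : i ≠ j) (s t : ℝ) :
    ‖(EuclideanSpace.single i s : E) - EuclideanSpace.single j t‖ = Real.sqrt (s ^ 2 + t ^ 2) := by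
  have h1 : ‖(EuclideanSpace.single i s : E) - EuclideanSpace.single j t‖ ^ 2 = s ^ 2 + t ^ 2 := by
    rw [norm_sub_sq_real]
    have : inner ℝ (EuclideanSpace.single i s : E) (EuclideanSpace.single j t) = (0 : ℝ) := by
      rw [EuclideanSpace.inner_single_left]
      simp [hij]
    rw [this]
    simp
  rw [← h1, Real.sqrt_sq (norm_nonneg _)]

theorem pyth (hc : ContinuousOn h (closedBall 0 8)) (hm : Mono h)
    (hn : ∃ a ∈ closedBall (0 : E) 8, h a ≠ h 0) {s t : ℝ} (hs : 0 ≤ s) (ht : 0 ≤ t) (hs2 : s < 2)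
    (ht2 : t < 2) : phi h (Real.sqrt (s ^ 2 + t ^ 2)) ^ 2 = phi h s ^ 2 + phi h t ^ 2 := by
  have hpos : ∀ r : ℝ, 0 < r → r < 8 → 0 < phi h r := by
    intro r hr hr8
    rcases (phi_nonneg (h := h) r).lt_or_eq with h1 | h1
    · exact h1
    · obtain ⟨a, ha, hne⟩ := hn
      exact absurd (const_of_phi hc hm hr hr8 h1.symm a ha) hne
  -- the vectors
  let w : Fin 4 → ℝ → E := fun i r => h (EuclideanSpace.single i r) - h 0
  have hws : ∀ i r, |r| < 2 → ‖w i r‖ = phi h |r| := by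
    intro i r hr
    have h1 := dist_eq_phi hc hm (a := EuclideanSpace.single i r) (b := 0) (by simpa using hr) (by simp)
    simpa using h1
  have hd : ∀ i j r r', i ≠ j → |r| < 2 → |r'| < 2 → ‖w i r - w j r'‖ = phi h (Real.sqrt (r ^ 2 + r' ^ 2)) := by
    intro i j r r' hij hr hr'
    have h1 := dist_eq_phi hc hm (a := EuclideanSpace.single i r) (b := EuclideanSpace.single j r')
      (by simpa using hr) (by simpa using hr')
    rw [norm_single_sub hij] at h1
    rw [← h1]
    congr 1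
    simp only [w]
    abel
  have horth : ∀ i j r r', i ≠ j → |r| < 2 → |r'| < 2 → inner ℝ (w i r - w i (-r)) (w j r') = (0 : ℝ) := by
    intro i j r r' hij hr hr'
    refine inner_zero_of_eq ?_ ?_
    · rw [hws i r hr, hws i (-r) (by rwa [abs_neg]), abs_neg]
    · rw [hd i j r r' hij hr hr', hd i j (-r) r' hij (by rwa [abs_neg]) hr', neg_sq]
  let d : Fin 4 → E := fun i => w i 1 - w i (-1)
  have hd1 : ∀ i, ‖d i‖ = phi h 2 := by
    intro i
    have h1 := dist_eq_phi hc hm (a := EuclideanSpace.single i 1) (b := EuclideanSpace.single i (-1))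
      (by simp) (by simp)
    have h2 : ‖(EuclideanSpace.single i (1 : ℝ) : E) - EuclideanSpace.single i (-1)‖ = 2 := by
      have : (EuclideanSpace.single i (1 : ℝ) : E) - EuclideanSpace.single i (-1) =
          EuclideanSpace.single i (2 : ℝ) := by
        ext k
        by_cases hk : k = i
        · subst hk; simp; norm_num
        · simp [hk]
      rw [this]; simp
    rw [h2] at h1
    rw [← h1]
    congr 1
    simp only [d, w]
    abel
  have hdpos : ∀ i, 0 < ‖d i‖ := fun i => by rw [hd1]; exact hpos 2 (by norm_num) (by norm_num)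
  have hdw : ∀ i j r, i ≠ j → |r| < 2 → inner ℝ (d i) (w j r) = (0 : ℝ) := fun i j r hij hr =>
    horth i j 1 r hij (by norm_num) hr
  have hdd : ∀ i j, i ≠ j → inner ℝ (d i) (d j) = (0 : ℝ) := by
    intro i j hij
    show inner ℝ (d i) (w j 1 - w j (-1)) = (0 : ℝ)
    rw [inner_sub_right, hdw i j 1 hij (by norm_num), hdw i j (-1) hij (by norm_num), sub_zero]
  have hon : Orthonormal ℝ (fun i : Fin 4 => (‖d i‖⁻¹ : ℝ) • d i) := by
    refine ⟨fun i => ?_, fun i j hij => ?_⟩
    · rw [norm_smul, norm_inv, norm_norm, inv_mul_cancel₀ (hdpos i).ne']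
    · show inner ℝ ((‖d i‖⁻¹ : ℝ) • d i) ((‖d j‖⁻¹ : ℝ) • d j) = (0 : ℝ)
      rw [inner_smul_left, inner_smul_right, hdd i j hij, mul_zero, mul_zero]
  have hcard : Fintype.card (Fin 4) = Module.finrank ℝ E := by simp [E]
  let B : OrthonormalBasis (Fin 4) ℝ E :=
    OrthonormalBasis.mk hon (by
      have hb := (basisOfOrthonormalOfCardEqFinrank hon hcard).span_eq
      rw [coe_basisOfOrthonormalOfCardEqFinrank] at hb
      rw [hb])
  have hB : ∀ i, B i = (‖d i‖⁻¹ : ℝ) • d i := fun i => by simp [B]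
  have hinner : inner ℝ (w 0 s) (w 1 t) = (0 : ℝ) := by
    rw [← B.sum_inner_mul_inner (w 0 s) (w 1 t)]
    refine Finset.sum_eq_zero fun i _ => ?_
    by_cases hi : i = 0
    · rw [hB, inner_smul_left, hdw i 1 t (by rw [hi]; decide) (by rwa [abs_of_nonneg ht])]
      simp
    · rw [hB i, inner_smul_right, real_inner_comm, hdw i 0 s hi (by rwa [abs_of_nonneg hs])]
      simp
  have h1 := hd 0 1 s t (by decide) (by rwa [abs_of_nonneg hs]) (by rwa [abs_of_nonneg ht])
  rw [← h1, norm_sub_sq_real, hinner, hws 0 s (by rwa [abs_of_nonneg hs]),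
    hws 1 t (by rwa [abs_of_nonneg ht]), abs_of_nonneg hs, abs_of_nonneg ht]
  ring

/-- monotone additive functions are linear -/
theorem linear_of_additive {ψ : ℝ → ℝ}
    (ha : ∀ x y, 0 ≤ x → 0 ≤ y → x < 4 → y < 4 → ψ (x + y) = ψ x + ψ y)
    (hm : ∀ x y, 0 ≤ x → x ≤ y → y < 8 → ψ x ≤ ψ y) {x : ℝ} (hx : 0 ≤ x) (hx4 : x ≤ 4) :
    ψ x = x * ψ 1 := by
  have h0 : ψ 0 = 0 := by
    have := ha 0 0 le_rfl le_rfl (by norm_num) (by norm_num)
    rw [add_zero] at this
    linarith
  have hk : ∀ (n : ℕ), 0 < n → ∀ k : ℕ, (k : ℝ) ≤ 4 * n + 1 → ψ (k / n) = k * ψ (1 / n) := by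
    intro n hn k
    have hn' : (0 : ℝ) < n := by exact_mod_cast hn
    have hn1 : (1 : ℝ) ≤ n := by exact_mod_cast hn
    induction k with
    | zero => intro _; simp [h0]
    | succ k ih =>
      intro hk
      push_cast at hk ⊢
      by_cases hkn : (k : ℝ) / n < 4
      · rw [add_div, ha (k / n) (1 / n) (by positivity) (by positivity) hkn
          (by rw [div_lt_iff₀ hn']; linarith), ih (by linarith)]
        ring
      · have hk4 : (k : ℝ) = 4 * n := by
          apply le_antisymm (by linarith)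
          rw [not_lt, le_div_iff₀ hn'] at hkn
          exact hkn
        have hk2 : (k : ℝ) / n = 4 := by rw [hk4]; field_simp
        -- 4 + 1 / n = (3 + 1 / n) + 1 ... use two smaller summands
        have e1 : ((k : ℝ) + 1) / n = 2 + (2 + 1 / n) := by
          rw [add_div, hk2]; ring
        have h2 : (1 : ℝ) / n ≤ 1 := by rw [div_le_one hn']; exact hn1
        have e2 : ψ (2 + (2 + 1 / (n : ℝ))) = ψ 2 + (ψ 2 + ψ (1 / n)) := by
          rw [ha 2 (2 + 1 / n) (by norm_num) (by positivity) (by norm_num) (by linarith),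
            ha 2 (1 / n) (by norm_num) (by positivity) (by norm_num) (by linarith)]
        have e3 : ψ 4 = ψ 2 + ψ 2 := by
          rw [← ha 2 2 (by norm_num) (by norm_num) (by norm_num) (by norm_num)]
          norm_num
        have e4 := ih (by linarith)
        rw [hk2] at e4
        rw [e1, e2]
        linarith
  have h1 : ∀ n : ℕ, 0 < n → ψ 1 = n * ψ (1 / n) := by
    intro n hn
    have hn' : (0 : ℝ) < n := by exact_mod_cast hn
    have := hk n hn n (by linarith)
    rwa [div_self hn'.ne'] at this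
  have hψ1 : 0 ≤ ψ 1 := by rw [← h0]; exact hm 0 1 le_rfl (by norm_num) (by norm_num)
  have hest : ∀ n : ℕ, 0 < n → |ψ x - x * ψ 1| ≤ ψ 1 / n := by
    intro n hn
    have hn' : (0 : ℝ) < n := by exact_mod_cast hn
    have hn1 : (1 : ℝ) ≤ n := by exact_mod_cast hn
    set k := ⌊x * n⌋₊ with hkdef
    have hk1 : (k : ℝ) ≤ x * n := Nat.floor_le (by positivity)
    have hk2 : x * n < k + 1 := Nat.lt_floor_add_one _
    have hkn : x * n ≤ 4 * n := by nlinarith
    have e1 := hk n hn k (by linarith)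
    have e2 := hk n hn (k + 1) (by push_cast; linarith)
    have e3 := h1 n hn
    push_cast at e2
    have e4 : ψ (1 / n) = ψ 1 / n := by rw [e3]; field_simp
    rw [e4] at e1 e2
    have m1 : ψ (k / n) ≤ ψ x := hm _ _ (by positivity) (by rw [div_le_iff₀ hn']; exact hk1) (by linarith)
    have m2 : ψ x ≤ ψ ((k + 1) / n) := by
      refine hm _ _ hx (by rw [le_div_iff₀ hn']; exact hk2.le) ?_
      rw [div_lt_iff₀ hn']
      linarith
    rw [e1] at m1
    rw [e2] at m2
    have f1 : (k : ℝ) * (ψ 1 / n) ≤ x * ψ 1 := by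
      have : (k : ℝ) * (ψ 1 / n) = (k / n) * ψ 1 := by ring
      rw [this]
      exact mul_le_mul_of_nonneg_right (by rw [div_le_iff₀ hn']; exact hk1) hψ1
    have f2 : x * ψ 1 ≤ ((k : ℝ) + 1) * (ψ 1 / n) := by
      have : ((k : ℝ) + 1) * (ψ 1 / n) = ((k + 1) / n) * ψ 1 := by ring
      rw [this]
      exact mul_le_mul_of_nonneg_right (by rw [le_div_iff₀ hn']; exact hk2.le) hψ1
    rw [abs_le]
    constructor <;> linarith
  have hlim : Tendsto (fun n : ℕ => ψ 1 / (n : ℝ)) atTop (𝓝 0) := tendsto_const_div_atTop_nhds_zero_nat _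
  have : |ψ x - x * ψ 1| ≤ 0 := by
    refine ge_of_tendsto hlim ?_
    filter_upwards [eventually_gt_atTop 0] with n hn
    exact hest n hn
  have := abs_nonpos_iff.mp this
  linarith

/-- **Rigidity.** -/
theorem rigid (hc : ContinuousOn h (closedBall 0 8)) (hm : Mono h)
    (hn : ∃ a ∈ closedBall (0 : E) 8, h a ≠ h 0) :
    ∃ c : ℝ, 0 < c ∧ ∀ a ∈ closedBall (0 : E) 1, ∀ b ∈ closedBall (0 : E) 1,
      ‖h a - h b‖ = c * ‖a - b‖ := by
  have hpos : 0 < phi h 1 := by
    rcases (phi_nonneg (h := h) 1).lt_or_eq with h1 | h1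
    · exact h1
    · obtain ⟨a, ha, hne⟩ := hn
      exact absurd (const_of_phi hc hm one_pos (by norm_num) h1.symm a ha) hne
  refine ⟨phi h 1, hpos, fun a ha b hb => ?_⟩
  rw [mem_closedBall_zero_iff] at ha hb
  have h1 := dist_eq_phi hc hm (a := a) (b := b) (by linarith) (by linarith)
  have hab : ‖a - b‖ ≤ 2 := (norm_sub_le _ _).trans (by linarith)
  have hlin := linear_of_additive (ψ := fun x => phi h (Real.sqrt x) ^ 2) (x := ‖a - b‖ ^ 2)
    (fun x y hx hy hx4 hy4 => by
      have := pyth hc hm hn (s := Real.sqrt x) (t := Real.sqrt y) (Real.sqrt_nonneg _)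
        (Real.sqrt_nonneg _)
        (by rw [Real.sqrt_lt' (by norm_num)]; norm_num; exact hx4)
        (by rw [Real.sqrt_lt' (by norm_num)]; norm_num; exact hy4)
      rwa [Real.sq_sqrt hx, Real.sq_sqrt hy] at this)
    (fun x y hx hxy hy8 => by
      refine pow_le_pow_left₀ (phi_nonneg _) ?_ 2
      refine phi_mono hc hm (Real.sqrt_nonneg _) (Real.sqrt_le_sqrt hxy) ?_
      rw [Real.sqrt_lt' (by norm_num)]
      linarith)
    (by positivity) (by nlinarith [norm_nonneg (a - b)])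
  simp only [Real.sqrt_sq (norm_nonneg _), Real.sqrt_one] at hlin
  rw [h1]
  have h2 : phi h ‖a - b‖ ^ 2 = (phi h 1 * ‖a - b‖) ^ 2 := by rw [hlin]; ring
  exact (pow_left_inj₀ (phi_nonneg _) (by positivity) two_ne_zero).mp h2

end Pool.Agent.Helper65.QS
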