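import Mathlib
import Pool.Agent.Helper65.QS.Rigid

/-!
# Weakly quasisymmetric maps with constant near one are close to similarities
-/

set_option autoImplicit false

open Set Filter Topology Metric

noncomputable section

namespace Pool.Agent.Helper65.QS

/-- `h` is weakly quasisymmetric, with constant `1 + δ` and up to a factor `1 - δ` for the distances,
on the ball of radius `8`. -/
def WQ (δ : ℝ) (h : E → E) : Prop :=
  ∀ p ∈ closedBall (0 : E) 8, ∀ a ∈ closedBall (0 : E) 8, ∀ b ∈ closedBall (0 : E) 8,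
    ‖a - p‖ ≤ (1 - δ) * ‖b - p‖ → ‖h a - h p‖ ≤ (1 + δ) * ‖h b - h p‖

/-- packing -/
theorem packing {τ : ℝ} (hτ : 0 < τ) : ∃ N : ℕ, ∀ z : Fin (N + 1) → E, (∀ i, ‖z i‖ ≤ 1) →
    ∃ i j, i ≠ j ∧ ‖z i - z j‖ < τ := by
  obtain ⟨s, hs1, hs2, hs3⟩ := (isCompact_closedBall (0 : E) 1).finite_cover_balls (half_pos hτ)
  refine ⟨hs2.toFinset.card, fun z hz => ?_⟩
  have hch : ∀ i, ∃ c ∈ hs2.toFinset, ‖z i - c‖ < τ / 2 := by
    intro i
    have h1 := hs3 (show z i ∈ closedBall (0 : E) 1 by simpa using hz i)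
    simp only [mem_iUnion, mem_ball, exists_prop] at h1
    obtain ⟨c, hc, hd⟩ := h1
    exact ⟨c, hs2.mem_toFinset.mpr hc, by rwa [← dist_eq_norm]⟩
  choose c hc hcd using hch
  obtain ⟨i, -, j, -, hij, hcc⟩ := Finset.exists_ne_map_eq_of_card_lt_of_maps_to
    (s := (Finset.univ : Finset (Fin (hs2.toFinset.card + 1)))) (t := hs2.toFinset)
    (by simp) (f := c) (fun i _ => hc i)
  refine ⟨i, j, hij, ?_⟩
  have h1 := hcd i
  have h2 := hcd j
  rw [← hcc, norm_sub_rev] at h2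
  calc ‖z i - z j‖ ≤ ‖z i - c i‖ + ‖c i - z j‖ := norm_sub_le_norm_sub_add_norm_sub _ _ _
    _ < τ := by linarith

theorem equi {τ : ℝ} (hτ : 0 < τ) : ∃ t : ℝ, 0 < t ∧ ∀ δ : ℝ, 0 ≤ δ → δ ≤ 1 / 4 → ∀ h : E → E,
    WQ δ h → (∀ a ∈ closedBall (0 : E) 8, ‖h a‖ ≤ 1) →
    ∀ a ∈ closedBall (0 : E) 8, ∀ p ∈ closedBall (0 : E) 8, ‖a - p‖ ≤ t → ‖h a - h p‖ ≤ τ := by
  obtain ⟨N, hN⟩ := packing (show 0 < τ / 4 by linarith)
  refine ⟨4 / 4 ^ (N + 1), by positivity, fun δ hδ0 hδ h hw hb a ha p hp hap => ?_⟩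
  by_contra hcon
  push Not at hcon
  set t : ℝ := 4 / 4 ^ (N + 1) with ht
  have ht0 : 0 < t := by positivity
  -- a direction
  obtain ⟨e, he1, he⟩ : ∃ e : E, ‖e‖ = 1 ∧ ∀ σ : ℝ, 0 ≤ σ → σ ≤ 4 → p + σ • e ∈ closedBall (0 : E) 8 := by
    rw [mem_closedBall_zero_iff] at hp
    by_cases hp0 : p = 0
    · refine ⟨e0, norm_e0, fun σ h0 h4 => ?_⟩
      rw [hp0, zero_add, mem_closedBall_zero_iff, norm_smul, norm_e0, Real.norm_of_nonneg h0]
      linarith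
    · have hpn : 0 < ‖p‖ := norm_pos_iff.mpr hp0
      refine ⟨(-‖p‖⁻¹) • p, ?_, fun σ h0 h4 => ?_⟩
      · rw [norm_smul, norm_neg, norm_inv, norm_norm, inv_mul_cancel₀ hpn.ne']
      · have : p + σ • ((-‖p‖⁻¹) • p) = (1 - σ * ‖p‖⁻¹) • p := by module
        rw [this, mem_closedBall_zero_iff, norm_smul]
        have h1 : ‖(1 : ℝ) - σ * ‖p‖⁻¹‖ * ‖p‖ = |‖p‖ - σ| := by
          rw [Real.norm_eq_abs, ← abs_of_pos hpn, ← abs_mul, abs_of_pos hpn]
          congr 1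
          field_simp
        rw [h1, abs_le]
        constructor <;> linarith
  let z : Fin (N + 1) → E := fun i => p + ((4 : ℝ) ^ (i.val + 1) * t) • e
  have hσ : ∀ i : Fin (N + 1), 0 ≤ (4 : ℝ) ^ (i.val + 1) * t ∧ (4 : ℝ) ^ (i.val + 1) * t ≤ 4 := by
    intro i
    refine ⟨by positivity, ?_⟩
    rw [ht, mul_div_assoc', div_le_iff₀ (by positivity), mul_comm]
    refine mul_le_mul_of_nonneg_left (pow_le_pow_right₀ (by norm_num) (by omega)) (by norm_num)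
  have hz : ∀ i, z i ∈ closedBall (0 : E) 8 := fun i => he _ (hσ i).1 (hσ i).2
  have hzp : ∀ i, ‖z i - p‖ = (4 : ℝ) ^ (i.val + 1) * t := by
    intro i
    simp only [z]
    rw [add_sub_cancel_left, norm_smul, he1, mul_one, Real.norm_of_nonneg (hσ i).1]
  have key : ∀ i j : Fin (N + 1), i.val < j.val → τ / 4 ≤ ‖h (z i) - h (z j)‖ := by
    intro i j hij
    have h1 : ‖h a - h p‖ ≤ (1 + δ) * ‖h (z i) - h p‖ := by
      refine hw p hp a ha (z i) (hz i) ?_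
      rw [hzp]
      have : (4 : ℝ) ≤ 4 ^ (i.val + 1) := by
        rw [pow_succ]
        have : (1 : ℝ) ≤ 4 ^ i.val := one_le_pow₀ (by norm_num)
        linarith
      have h5 : (4 : ℝ) * t ≤ 4 ^ (i.val + 1) * t := mul_le_mul_of_nonneg_right this ht0.le
      nlinarith
    have h2 : ‖h p - h (z i)‖ ≤ (1 + δ) * ‖h (z j) - h (z i)‖ := by
      refine hw (z i) (hz i) p hp (z j) (hz j) ?_
      rw [norm_sub_rev, hzp]
      have h3 : ‖z j - z i‖ = ((4 : ℝ) ^ (j.val + 1) - 4 ^ (i.val + 1)) * t := by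
        have : z j - z i = (((4 : ℝ) ^ (j.val + 1) - 4 ^ (i.val + 1)) * t) • e := by
          simp only [z]; module
        rw [this, norm_smul, he1, mul_one, Real.norm_of_nonneg]
        have : (4 : ℝ) ^ (i.val + 1) ≤ 4 ^ (j.val + 1) := pow_le_pow_right₀ (by norm_num) (by omega)
        exact mul_nonneg (by linarith) ht0.le
      rw [h3]
      have h4 : (4 : ℝ) * 4 ^ (i.val + 1) ≤ 4 ^ (j.val + 1) := by
        rw [← pow_succ']
        exact pow_le_pow_right₀ (by norm_num) (by omega)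
      have h5 : (3 : ℝ) * 4 ^ (i.val + 1) ≤ 4 ^ (j.val + 1) - 4 ^ (i.val + 1) := by linarith
      have h6 : (0 : ℝ) < 4 ^ (i.val + 1) := by positivity
      have h7 : (3 : ℝ) * 4 ^ (i.val + 1) * t ≤ (4 ^ (j.val + 1) - 4 ^ (i.val + 1)) * t :=
        mul_le_mul_of_nonneg_right h5 ht0.le
      have h8 : 0 < (4 : ℝ) ^ (i.val + 1) * t := by positivity
      nlinarith
    rw [norm_sub_rev] at h2
    rw [norm_sub_rev (h (z i)) (h (z j))]
    have h9 := norm_nonneg (h (z j) - h (z i))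
    have h10 : ‖h a - h p‖ ≤ (1 + δ) * ((1 + δ) * ‖h (z j) - h (z i)‖) :=
      h1.trans (mul_le_mul_of_nonneg_left h2 (by linarith))
    have h11 : (1 + δ) * (1 + δ) ≤ 4 := by nlinarith
    have h12 : (1 + δ) * ((1 + δ) * ‖h (z j) - h (z i)‖) ≤ 4 * ‖h (z j) - h (z i)‖ := by
      rw [← mul_assoc]
      exact mul_le_mul_of_nonneg_right h11 h9
    linarith
  obtain ⟨i, j, hij, hlt⟩ := hN (fun i => h (z i)) (fun i => hb _ (hz i))
  rcases lt_or_gt_of_ne (fun h : i.val = j.val => hij (Fin.ext h)) with h1 | h1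
  · exact absurd (key i j h1) (not_le.mpr hlt)
  · have := key j i h1
    rw [norm_sub_rev] at this
    exact absurd this (not_le.mpr hlt)

/-- the maps close to similarities on the unit ball -/
def Sim (ε : ℝ) (h : E → E) : Prop :=
  ∃ κ : ℝ, 0 ≤ κ ∧ ∀ u ∈ closedBall (0 : E) 1, ∀ w ∈ closedBall (0 : E) 1,
    |κ * ‖h u - h w‖ - ‖u - w‖| ≤ ε

theorem compactness {ε : ℝ} (hε : 0 < ε) : ∃ δ : ℝ, 0 < δ ∧ δ ≤ 1 / 4 ∧ ∀ h : E → E,
    ContinuousOn h (closedBall 0 8) → WQ δ h → (∃ a ∈ closedBall (0 : E) 8, h a ≠ h 0) →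
    Sim ε h := by
  by_contra hcon
  push Not at hcon
  have hδ : ∀ n : ℕ, 0 < 1 / ((n : ℝ) + 4) ∧ 1 / ((n : ℝ) + 4) ≤ 1 / 4 := by
    intro n
    refine ⟨by positivity, ?_⟩
    apply one_div_le_one_div_of_le (by norm_num)
    have : (0 : ℝ) ≤ n := by positivity
    linarith
  choose g hg using fun n : ℕ => hcon (1 / ((n : ℝ) + 4)) (hδ n).1 (hδ n).2
  have hK : IsCompact (closedBall (0 : E) 8) := isCompact_closedBall 0 8
  have h0mem : (0 : E) ∈ closedBall (0 : E) 8 := by simp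
  -- the point where the norm is maximal
  have hmax : ∀ n, ∃ m ∈ closedBall (0 : E) 8, ∀ a ∈ closedBall (0 : E) 8,
      ‖g n a - g n 0‖ ≤ ‖g n m - g n 0‖ := by
    intro n
    have hcont : ContinuousOn (fun a => ‖g n a - g n 0‖) (closedBall 0 8) :=
      ((hg n).1.sub continuousOn_const).norm
    obtain ⟨m, hm, hmm⟩ := hK.exists_isMaxOn ⟨0, h0mem⟩ hcont
    exact ⟨m, hm, fun a ha => hmm ha⟩
  choose m hm hmm using hmax
  have hS : ∀ n, 0 < ‖g n (m n) - g n 0‖ := by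
    intro n
    obtain ⟨a, ha, hne⟩ := (hg n).2.2.1
    exact lt_of_lt_of_le (norm_pos_iff.mpr (sub_ne_zero.mpr hne)) (hmm n a ha)
  let k : ℕ → E → E := fun n a => (‖g n (m n) - g n 0‖⁻¹ : ℝ) • (g n a - g n 0)
  have hkk : ∀ n a b, ‖k n a - k n b‖ = ‖g n (m n) - g n 0‖⁻¹ * ‖g n a - g n b‖ := by
    intro n a b
    have : k n a - k n b = (‖g n (m n) - g n 0‖⁻¹ : ℝ) • (g n a - g n b) := by
      simp only [k]; module
    rw [this, norm_smul, norm_inv, norm_norm]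
  have hkb : ∀ n, ∀ a ∈ closedBall (0 : E) 8, ‖k n a‖ ≤ 1 := by
    intro n a ha
    simp only [k]
    rw [norm_smul, norm_inv, norm_norm, inv_mul_le_iff₀ (hS n), mul_one]
    exact hmm n a ha
  have hk0 : ∀ n, k n 0 = 0 := fun n => by simp [k]
  have hk1 : ∀ n, ‖k n (m n)‖ = 1 := by
    intro n
    simp only [k]
    rw [norm_smul, norm_inv, norm_norm, inv_mul_cancel₀ (hS n).ne']
  have hkw : ∀ n : ℕ, WQ (1 / ((n : ℝ) + 4)) (k n) := by
    intro n p hp a ha b hb hab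
    rw [hkk, hkk]
    have h1 := (hg n).2.1 p hp a ha b hb hab
    have h2 : 0 ≤ ‖g n (m n) - g n 0‖⁻¹ := by positivity
    calc ‖g n (m n) - g n 0‖⁻¹ * ‖g n a - g n p‖
        ≤ ‖g n (m n) - g n 0‖⁻¹ * ((1 + 1 / ((n : ℝ) + 4)) * ‖g n b - g n p‖) :=
          mul_le_mul_of_nonneg_left h1 h2
      _ = _ := by ring
  -- an ultrafilter
  let 𝒰 : Ultrafilter ℕ := hyperfilter ℕ
  have h𝒰 : (𝒰 : Filter ℕ) ≤ atTop := Nat.hyperfilter_le_atTop
  have hlimex : ∀ v : ℕ → E, ∀ r : ℝ, (∀ n, v n ∈ closedBall (0 : E) r) →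
      ∃ x ∈ closedBall (0 : E) r, Tendsto v 𝒰 (𝓝 x) := by
    intro v r hv
    obtain ⟨x, hx, hle⟩ := (isCompact_closedBall (0 : E) r).ultrafilter_le_nhds (𝒰.map v)
      (by
        rw [Ultrafilter.coe_map]
        exact tendsto_principal.mpr (Eventually.of_forall hv))
    exact ⟨x, hx, hle⟩
  have hex : ∀ a : E, ∃ x : E, a ∈ closedBall (0 : E) 8 → Tendsto (fun n => k n a) 𝒰 (𝓝 x) := by
    intro a
    by_cases ha : a ∈ closedBall (0 : E) 8
    · obtain ⟨x, -, hx⟩ := hlimex (fun n => k n a) 1 (fun n => by simpa using hkb n a ha)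
      exact ⟨x, fun _ => hx⟩
    · exact ⟨0, fun h => absurd h ha⟩
  choose H hH using hex
  have hequi : ∀ τ : ℝ, 0 < τ → ∃ t : ℝ, 0 < t ∧ ∀ n, ∀ a ∈ closedBall (0 : E) 8,
      ∀ p ∈ closedBall (0 : E) 8, ‖a - p‖ ≤ t → ‖k n a - k n p‖ ≤ τ := by
    intro τ hτ
    obtain ⟨t, ht, h⟩ := equi hτ
    exact ⟨t, ht, fun n => h _ (hδ n).1.le (hδ n).2 (k n) (hkw n) (hkb n)⟩
  have hHc : ContinuousOn H (closedBall 0 8) := by
    rw [Metric.continuousOn_iff]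
    intro p hp τ hτ
    obtain ⟨t, ht, h⟩ := hequi (τ / 2) (half_pos hτ)
    refine ⟨t, ht, fun a ha hap => ?_⟩
    rw [dist_eq_norm] at hap ⊢
    have h1 : Tendsto (fun n => ‖k n a - k n p‖) 𝒰 (𝓝 ‖H a - H p‖) :=
      ((hH a ha).sub (hH p hp)).norm
    have h2 : ‖H a - H p‖ ≤ τ / 2 := le_of_tendsto h1 (Eventually.of_forall fun n => h n a ha p hp hap.le)
    linarith
  have hδlim : Tendsto (fun n : ℕ => 1 / ((n : ℝ) + 4)) 𝒰 (𝓝 0) := by
    refine Tendsto.mono_left ?_ h𝒰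
    have h1 : Tendsto (fun n : ℕ => (n : ℝ) + 4) atTop atTop :=
      tendsto_atTop_add_const_right _ _ tendsto_natCast_atTop_atTop
    have h2 := h1.inv_tendsto_atTop
    simp only [one_div]
    exact h2
  have hHm : Mono H := by
    intro p hp a ha b hb hab
    have hbp : 0 < ‖b - p‖ := lt_of_le_of_lt (norm_nonneg _) hab
    have hev : ∀ᶠ n in (𝒰 : Filter ℕ), ‖k n a - k n p‖ ≤ (1 + 1 / ((n : ℝ) + 4)) * ‖k n b - k n p‖ := by
      have h1 : Tendsto (fun n : ℕ => (1 - 1 / ((n : ℝ) + 4)) * ‖b - p‖) 𝒰 (𝓝 ((1 - 0) * ‖b - p‖)) :=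
        (tendsto_const_nhds.sub hδlim).mul_const _
      rw [sub_zero, one_mul] at h1
      filter_upwards [h1.eventually (lt_mem_nhds hab)] with n hn
      exact hkw n p hp a ha b hb hn.le
    have hl : Tendsto (fun n => ‖k n a - k n p‖) 𝒰 (𝓝 ‖H a - H p‖) :=
      ((hH a ha).sub (hH p hp)).norm
    have hr : Tendsto (fun n : ℕ => (1 + 1 / ((n : ℝ) + 4)) * ‖k n b - k n p‖) 𝒰
        (𝓝 ((1 + 0) * ‖H b - H p‖)) :=
      (tendsto_const_nhds.add hδlim).mul ((hH b hb).sub (hH p hp)).norm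
    rw [add_zero, one_mul] at hr
    exact le_of_tendsto_of_tendsto hl hr hev
  have hdiag : ∀ v : ℕ → E, ∀ x ∈ closedBall (0 : E) 8, (∀ n, v n ∈ closedBall (0 : E) 8) →
      Tendsto v 𝒰 (𝓝 x) → Tendsto (fun n => k n (v n)) 𝒰 (𝓝 (H x)) := by
    intro v x hx hv hvx
    have h1 : Tendsto (fun n => k n (v n) - k n x) 𝒰 (𝓝 0) := by
      rw [Metric.tendsto_nhds]
      intro τ hτ
      obtain ⟨t, ht, h⟩ := hequi (τ / 2) (half_pos hτ)
      filter_upwards [Metric.tendsto_nhds.mp hvx t ht] with n hn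
      rw [dist_zero_right]
      rw [dist_eq_norm] at hn
      have := h n (v n) (hv n) x hx hn.le
      linarith
    have h2 := h1.add (hH x hx)
    simpa using h2
  have hH0 : H 0 = 0 := by
    have h1 := hH 0 h0mem
    have h2 : Tendsto (fun n => k n 0) 𝒰 (𝓝 0) := by
      simp only [hk0]
      exact tendsto_const_nhds
    exact tendsto_nhds_unique h1 h2
  have hHn : ∃ a ∈ closedBall (0 : E) 8, H a ≠ H 0 := by
    obtain ⟨x, hx, hxl⟩ := hlimex m 8 hm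
    refine ⟨x, hx, ?_⟩
    have h1 := (hdiag m x hx hm hxl).norm
    simp only [hk1] at h1
    have h2 : ‖H x‖ = 1 := tendsto_nhds_unique h1 tendsto_const_nhds
    rw [hH0]
    intro h3
    rw [h3, norm_zero] at h2
    norm_num at h2
  obtain ⟨c, hc0, hc⟩ := rigid hHc hHm hHn
  -- the failing points
  have hfail : ∀ n, ∃ u ∈ closedBall (0 : E) 1, ∃ w ∈ closedBall (0 : E) 1,
      ε < |c⁻¹ * ‖k n u - k n w‖ - ‖u - w‖| := by
    intro n
    have h1 := (hg n).2.2.2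
    unfold Sim at h1
    push Not at h1
    obtain ⟨u, hu, w, hw, h2⟩ := h1 (c⁻¹ * ‖g n (m n) - g n 0‖⁻¹) (by positivity)
    refine ⟨u, hu, w, hw, ?_⟩
    rw [hkk, ← mul_assoc]
    exact h2
  choose u hu w hw huw using hfail
  obtain ⟨u', hu', hul⟩ := hlimex u 1 hu
  obtain ⟨w', hw', hwl⟩ := hlimex w 1 hw
  have hsub : closedBall (0 : E) 1 ⊆ closedBall 0 8 := closedBall_subset_closedBall (by norm_num)
  have h1 := hdiag u u' (hsub hu') (fun n => hsub (hu n)) hul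
  have h2 := hdiag w w' (hsub hw') (fun n => hsub (hw n)) hwl
  have h3 : Tendsto (fun n => |c⁻¹ * ‖k n (u n) - k n (w n)‖ - ‖u n - w n‖|) 𝒰
      (𝓝 |c⁻¹ * ‖H u' - H w'‖ - ‖u' - w'‖|) :=
    (((h1.sub h2).norm.const_mul c⁻¹).sub (hul.sub hwl).norm).abs
  have h4 : ε ≤ |c⁻¹ * ‖H u' - H w'‖ - ‖u' - w'‖| :=
    ge_of_tendsto h3 (Eventually.of_forall fun n => (huw n).le)
  rw [hc u' hu' w' hw', inv_mul_cancel_left₀ hc0.ne', sub_self, abs_zero] at h4
  linarith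

end Pool.Agent.Helper65.QS
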