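import Mathlib
import Pool.Agent.Helper65.QS.Compact

/-!
# Weakly quasisymmetric maps in charts
-/

set_option autoImplicit false

open Set Filter Topology Metric Function

noncomputable section

namespace Pool.Agent.Helper65.QS

/-- an injective linear map becomes isometric in suitable linear coordinates -/
theorem exists_coord {m : ℕ} (D : E →L[ℝ] EuclideanSpace ℝ (Fin m)) (hD : Injective D) :
    ∃ T : E ≃L[ℝ] E, ∀ v, ‖D (T v)‖ = ‖v‖ := by
  have hD' : Injective D.toLinearMap := hD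
  let L : E ≃ₗ[ℝ] LinearMap.range D.toLinearMap := LinearEquiv.ofInjective D.toLinearMap hD'
  have hfin : Module.finrank ℝ E = Module.finrank ℝ (LinearMap.range D.toLinearMap) := L.finrank_eq
  let I : E ≃ₗᵢ[ℝ] LinearMap.range D.toLinearMap :=
    (stdOrthonormalBasis ℝ E).equiv (stdOrthonormalBasis ℝ (LinearMap.range D.toLinearMap))
      (finCongr hfin)
  let T : E ≃ₗ[ℝ] E := I.toLinearEquiv.trans L.symm
  refine ⟨T.toContinuousLinearEquiv, fun v => ?_⟩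
  have h1 : D (T.toContinuousLinearEquiv v) = ((L (L.symm (I v)) : LinearMap.range D.toLinearMap) :
      EuclideanSpace ℝ (Fin m)) := rfl
  rw [h1, LinearEquiv.apply_symm_apply]
  exact I.norm_map v

theorem coarse_of_qs {M : Type} [TopologicalSpace M] {m : ℕ} {δ : ℝ} (hδ : 0 < δ) (hδ4 : δ ≤ 1 / 4)
    (hcomp : ∀ h : E → E, ContinuousOn h (closedBall 0 8) → WQ δ h →
      (∃ a ∈ closedBall (0 : E) 8, h a ≠ h 0) → Sim (1 / 8) h)
    (e : M → EuclideanSpace ℝ (Fin m)) (f : M → E) (x : M) (hf : Continuous f)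
    (A : E → M) (hAc : ∀ᶠ z in 𝓝 (0 : E), ContinuousAt A z) (hAn : map A (𝓝 0) = 𝓝 x)
    (hsm : ContDiffAt ℝ 1 (fun z => e (A z)) 0) (hinj : Injective (fderiv ℝ (fun z => e (A z)) 0))
    (hq : ∃ U ∈ 𝓝 x, InjOn f U ∧ ∀ p ∈ U, ∀ a ∈ U, ∀ b ∈ U, ‖e a - e p‖ ≤ ‖e b - e p‖ →
      ‖f a - f p‖ ≤ (1 + δ) * ‖f b - f p‖) :
    ∃ U ∈ 𝓝 x, ∃ r : ℝ, 0 < r ∧ ∀ y ∈ U, ∀ s : ℝ, 0 < s → s < r → ∃ κ : ℝ, 0 ≤ κ ∧ ∀ u ∈ U, ∀ w ∈ U,
      ‖e u - e y‖ ≤ s → ‖e w - e y‖ ≤ s → |κ * ‖f u - f w‖ - ‖e u - e w‖| ≤ 1 / 3 * s := by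
  obtain ⟨U, hU, hUi, hUq⟩ := hq
  obtain ⟨T, hT⟩ := exists_coord _ hinj
  -- the map in the new coordinates
  have hstr : HasStrictFDerivAt (fun z => e (A z)) (fderiv ℝ (fun z => e (A z)) 0) 0 :=
    hsm.hasStrictFDerivAt one_ne_zero
  have hstr' : HasStrictFDerivAt (fun z => e (A (T z)))
      ((fderiv ℝ (fun z => e (A z)) 0).comp (T : E →L[ℝ] E)) 0 := by
    have h1 : HasStrictFDerivAt (fun z => T z) (T : E →L[ℝ] E) (0 : E) :=
      (T : E →L[ℝ] E).hasStrictFDerivAt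
    have h2 : HasStrictFDerivAt (fun z => e (A z)) (fderiv ℝ (fun z => e (A z)) 0) (T 0) := by
      rw [map_zero]; exact hstr
    exact h2.comp 0 h1
  set δ' : ℝ := min (δ / 2) (1 / 32) with hδ'
  have hδ'0 : 0 < δ' := lt_min (by linarith) (by norm_num)
  have hδ'1 : δ' ≤ δ / 2 := min_le_left _ _
  have hδ'2 : δ' ≤ 1 / 32 := min_le_right _ _
  have hev := (hasStrictFDerivAt_iff_isLittleO.mp hstr').def hδ'0
  rw [show ((0 : E), (0 : E)) = ((0 : E), (0 : E)) from rfl, nhds_prod_eq] at hev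
  obtain ⟨V, hV, hVq⟩ := (Filter.basis_sets (𝓝 (0 : E))).prod_self.eventually_iff.mp hev
  -- the neighbourhood in the new coordinates
  have hTn : map T (𝓝 (0 : E)) = 𝓝 0 := by
    have := T.toHomeomorph.map_nhds_eq 0
    simpa using this
  have hATn : map (fun z => A (T z)) (𝓝 (0 : E)) = 𝓝 x := by
    rw [show (fun z => A (T z)) = A ∘ T from rfl, ← Filter.map_map, hTn, hAn]
  have hUn : ∀ᶠ z in 𝓝 (0 : E), A (T z) ∈ U := by
    rw [← hATn] at hU
    exact hU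
  have hCn : ∀ᶠ z in 𝓝 (0 : E), ContinuousAt A (T z) := by
    rw [← hTn] at hAc
    exact hAc
  obtain ⟨ρ, hρ, hρq⟩ := Metric.eventually_nhds_iff_ball.mp ((hUn.and hCn).and hV)
  have hdist : ∀ p ∈ ball (0 : E) ρ, ∀ q ∈ ball (0 : E) ρ,
      |‖e (A (T p)) - e (A (T q))‖ - ‖p - q‖| ≤ δ' * ‖p - q‖ := by
    intro p hp q hq
    have h1 := hVq (show (p, q) ∈ V ×ˢ V from ⟨(hρq p hp).2, (hρq q hq).2⟩)
    simp only at h1
    have h2 : ‖((fderiv ℝ (fun z => e (A z)) 0).comp (T : E →L[ℝ] E)) (p - q)‖ = ‖p - q‖ := hT _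
    rw [← h2] at h1 ⊢
    refine (abs_norm_sub_norm_le _ _).trans ?_
    rw [h2] at h1 ⊢
    exact h1
  have hinjT : ∀ p ∈ ball (0 : E) ρ, ∀ q ∈ ball (0 : E) ρ, f (A (T p)) = f (A (T q)) → p = q := by
    intro p hp q hq hpq
    have h1 := hUi (hρq p hp).1.1 (hρq q hq).1.1 hpq
    have h2 := hdist p hp q hq
    rw [h1, sub_self, norm_zero, zero_sub, abs_neg, abs_norm] at h2
    have h3 := norm_nonneg (p - q)
    have h4 : ‖p - q‖ = 0 := by nlinarith
    exact sub_eq_zero.mp (norm_eq_zero.mp h4)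
  -- the rescaled maps
  have hmain : ∀ y0 : E, ‖y0‖ < ρ / 4 → ∀ s' : ℝ, 0 < s' → 8 * s' < ρ / 4 → ∃ κ : ℝ, 0 ≤ κ ∧
      ∀ p q : E, ‖p - y0‖ ≤ s' → ‖q - y0‖ ≤ s' →
        |κ * ‖f (A (T p)) - f (A (T q))‖ - ‖p - q‖| ≤ 1 / 8 * s' := by
    intro y0 hy0 s' hs' hs8
    have hmem : ∀ z ∈ closedBall (0 : E) 8, y0 + s' • z ∈ ball (0 : E) ρ := by
      intro z hz
      rw [mem_closedBall_zero_iff] at hz
      rw [mem_ball_zero_iff]
      calc ‖y0 + s' • z‖ ≤ ‖y0‖ + ‖s' • z‖ := norm_add_le _ _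
        _ = ‖y0‖ + s' * ‖z‖ := by rw [norm_smul, Real.norm_of_nonneg hs'.le]
        _ < ρ := by nlinarith
    have hd : ∀ z z' : E, ‖(y0 + s' • z) - (y0 + s' • z')‖ = s' * ‖z - z'‖ := by
      intro z z'
      rw [show (y0 + s' • z) - (y0 + s' • z') = s' • (z - z') by module, norm_smul,
        Real.norm_of_nonneg hs'.le]
    obtain ⟨κ, hκ0, hκ⟩ := hcomp (fun z => f (A (T (y0 + s' • z)))) (by
        intro z hz
        have h1 : ContinuousAt A (T (y0 + s' • z)) := (hρq _ (hmem z hz)).1.2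
        have h2 : ContinuousAt (fun z : E => T (y0 + s' • z)) z := by fun_prop
        exact (hf.continuousAt.comp (ContinuousAt.comp (f := fun z : E => T (y0 + s' • z)) h1 h2)).continuousWithinAt)
      (by
        intro p hp a ha b hb hab
        refine hUq _ (hρq _ (hmem p hp)).1.1 _ (hρq _ (hmem a ha)).1.1 _ (hρq _ (hmem b hb)).1.1 ?_
        have h1 := hdist _ (hmem a ha) _ (hmem p hp)
        have h2 := hdist _ (hmem b hb) _ (hmem p hp)
        rw [hd] at h1 h2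
        rw [abs_le] at h1 h2
        have h3 : ‖e (A (T (y0 + s' • a))) - e (A (T (y0 + s' • p)))‖ ≤ (1 + δ') * (s' * ‖a - p‖) := by
          linarith [h1.2]
        have h4 : (1 - δ') * (s' * ‖b - p‖) ≤ ‖e (A (T (y0 + s' • b))) - e (A (T (y0 + s' • p)))‖ := by
          linarith [h2.1]
        refine h3.trans (le_trans ?_ h4)
        have h5 : (1 + δ') * (1 - δ) ≤ 1 - δ' := by nlinarith
        have h6 := norm_nonneg (b - p)
        calc (1 + δ') * (s' * ‖a - p‖) ≤ (1 + δ') * (s' * ((1 - δ) * ‖b - p‖)) := by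
              refine mul_le_mul_of_nonneg_left (mul_le_mul_of_nonneg_left hab hs'.le) (by linarith)
          _ = ((1 + δ') * (1 - δ)) * (s' * ‖b - p‖) := by ring
          _ ≤ (1 - δ') * (s' * ‖b - p‖) := mul_le_mul_of_nonneg_right h5 (by positivity))
      (by
        refine ⟨e0, by rw [mem_closedBall_zero_iff, norm_e0]; norm_num, fun hne => ?_⟩
        have h1 := hinjT _ (hmem e0 (by rw [mem_closedBall_zero_iff, norm_e0]; norm_num)) _
          (hmem 0 (by simp)) hne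
        have h2 := hd e0 0
        rw [h1, sub_self, norm_zero, sub_zero, norm_e0] at h2
        linarith)
    refine ⟨κ * s', by positivity, fun p q hp hq => ?_⟩
    have hp' : s'⁻¹ • (p - y0) ∈ closedBall (0 : E) 1 := by
      rw [mem_closedBall_zero_iff, norm_smul, norm_inv, Real.norm_of_nonneg hs'.le,
        inv_mul_le_iff₀ hs', mul_one]
      exact hp
    have hq' : s'⁻¹ • (q - y0) ∈ closedBall (0 : E) 1 := by
      rw [mem_closedBall_zero_iff, norm_smul, norm_inv, Real.norm_of_nonneg hs'.le,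
        inv_mul_le_iff₀ hs', mul_one]
      exact hq
    have e1 : y0 + s' • (s'⁻¹ • (p - y0)) = p := by
      rw [smul_smul, mul_inv_cancel₀ hs'.ne', one_smul, add_sub_cancel]
    have e2 : y0 + s' • (s'⁻¹ • (q - y0)) = q := by
      rw [smul_smul, mul_inv_cancel₀ hs'.ne', one_smul, add_sub_cancel]
    have h1 := hκ _ hp' _ hq'
    simp only [e1, e2] at h1
    have h2 : ‖s'⁻¹ • (p - y0) - s'⁻¹ • (q - y0)‖ = s'⁻¹ * ‖p - q‖ := by
      rw [show s'⁻¹ • (p - y0) - s'⁻¹ • (q - y0) = s'⁻¹ • (p - q) by module, norm_smul, norm_inv,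
        Real.norm_of_nonneg hs'.le]
    rw [h2] at h1
    have h3 : κ * s' * ‖f (A (T p)) - f (A (T q))‖ - ‖p - q‖ =
        s' * (κ * ‖f (A (T p)) - f (A (T q))‖ - s'⁻¹ * ‖p - q‖) := by
      field_simp
    rw [h3, abs_mul, abs_of_pos hs', mul_comm (1 / 8) s']
    exact mul_le_mul_of_nonneg_left h1 hs'.le
  refine ⟨(fun z => A (T z)) '' ball 0 (ρ / 4), ?_, ρ / 64, by linarith, ?_⟩
  · rw [← hATn]
    exact image_mem_map (ball_mem_nhds _ (by linarith))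
  rintro _ ⟨y0, hy0, rfl⟩ s hs hsr
  have hsub : ∀ z ∈ ball (0 : E) (ρ / 4), z ∈ ball (0 : E) ρ := fun z hz =>
    ball_subset_ball (by linarith) hz
  obtain ⟨κ, hκ0, hκ⟩ := hmain y0 (by simpa using hy0) (s / (1 - δ')) (by
    apply div_pos hs; linarith) (by
    rw [← mul_div_assoc, div_lt_iff₀ (by linarith)]
    nlinarith)
  refine ⟨κ, hκ0, ?_⟩
  rintro _ ⟨p, hp, rfl⟩ _ ⟨q, hq, rfl⟩ hpy hqy
  simp only at hpy hqy ⊢
  have hclose : ∀ z ∈ ball (0 : E) (ρ / 4), ‖e (A (T z)) - e (A (T y0))‖ ≤ s → ‖z - y0‖ ≤ s / (1 - δ') := by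
    intro z hz hzs
    have h1 := hdist z (hsub z hz) y0 (hsub y0 hy0)
    rw [abs_le] at h1
    rw [le_div_iff₀ (by linarith)]
    linarith [h1.1]
  have hp1 := hclose p hp hpy
  have hq1 := hclose q hq hqy
  have h1 := hκ p q hp1 hq1
  have h2 := hdist p (hsub p hp) q (hsub q hq)
  have h3 : ‖p - q‖ ≤ 2 * (s / (1 - δ')) := by
    calc ‖p - q‖ ≤ ‖p - y0‖ + ‖y0 - q‖ := norm_sub_le_norm_sub_add_norm_sub _ _ _
      _ ≤ 2 * (s / (1 - δ')) := by rw [norm_sub_rev y0 q]; linarith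
  have h4 : s / (1 - δ') ≤ s * (32 / 31) := by
    rw [div_le_iff₀ (by linarith)]
    nlinarith
  have h5 : δ' * ‖p - q‖ ≤ 1 / 32 * (2 * (s * (32 / 31))) := by
    refine mul_le_mul hδ'2 (h3.trans (by linarith)) (norm_nonneg _) (by norm_num)
  have h6 : |κ * ‖f (A (T p)) - f (A (T q))‖ - ‖e (A (T p)) - e (A (T q))‖| ≤
      |κ * ‖f (A (T p)) - f (A (T q))‖ - ‖p - q‖| + |‖p - q‖ - ‖e (A (T p)) - e (A (T q))‖| :=
    abs_sub_le _ _ _
  rw [abs_sub_comm ‖p - q‖] at h6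
  linarith

end Pool.Agent.Helper65.QS
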